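import Pool.Agent.helper36.MP.SpecC

/-!
# Project mp: (MP_af9036_an): module MAINA, Theorem A' [paper, section 1 and (7.5)]
-/

set_option autoImplicit false

open Complex Metric Set Filter Topology MeasureTheory

noncomputable section

namespace MPS

theorem MAINA (hFR : FR_stmt) (hNM : NM_stmt) (hCNT : CNT_stmt) (hNFM : NFM_stmt)
    (hARC : ARC_stmt) (hNOSL : NOSL_stmt) : MAINA_stmt := by
  intro n d₀ hn hd₀
  set d₁ : ℝ := min d₀ 1 / 10 with hd₁
  have hmin : 0 < min d₀ 1 := lt_min hd₀ one_pos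
  have hd₁0 : 0 < d₁ := by positivity
  have hd₁1 : d₁ ≤ 1 := by
    have : min d₀ 1 ≤ 1 := min_le_right _ _
    rw [hd₁]
    linarith
  have hpos : ∀ j : ℕ, 0 < d₁ / 64 ^ j := fun j => by positivity
  have hle1 : ∀ j : ℕ, d₁ / 64 ^ j ≤ 1 := fun j =>
    (div_le_self hd₁0.le (one_le_pow₀ (by norm_num))).trans hd₁1
  have hch := fun j : ℕ => hFR n (d₁ / 64 ^ j) hn (hpos j) (hle1 j)
  choose R₀ hR₀ ε₀ hε₀ hfr using hch
  obtain ⟨jm, -, hjm⟩ := Finset.exists_min_image (Finset.range 5) ε₀ ⟨0, by simp⟩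
  obtain ⟨jM, -, hjM⟩ := Finset.exists_max_image (Finset.range 5) R₀ ⟨0, by simp⟩
  refine ⟨R₀ jM, hR₀ jM, ε₀ jm, hε₀ jm, ?_⟩
  intro k _ c b g hk hc hcyc hrho harg hg hE
  have hψ := fun i : ZMod k => hNM k b g i hk hcyc.inj
  choose ψ hψm using hψ
  have su : SU n k c b g ψ (R₀ jM) (ε₀ jm) := ⟨hn, hk, hc, hcyc, hrho, hψm, hR₀ jM, hE⟩
  obtain ⟨i, hi⟩ := hCNT k b g ψ d₁ hcyc.inj hg (fun i => (hψm i).pn) hd₁0
  obtain ⟨y₀, hy₀⟩ := hNFM k b g i (ψ i) (hψm i)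
  obtain ⟨hN1, -, hN3, hN4, -⟩ := hNOSL k b g i (ψ i) (hψm i).pn
  set θ : ℝ := (rho n b).arg with hθ
  have hρ0 : rho n b ≠ 0 := by
    intro h0
    rw [h0, norm_zero] at hrho
    linarith
  have hρn : ((‖rho n b‖ : ℝ) : ℂ) ≠ 0 := by
    rw [Complex.ofReal_ne_zero]
    exact norm_ne_zero_iff.2 hρ0
  have hexp : rho n b / ‖rho n b‖ = Complex.exp (θ * I) := by
    rw [div_eq_iff hρn, mul_comm]
    exact (Complex.norm_mul_exp_arg_mul_I (rho n b)).symm
  obtain ⟨a, ha, haS⟩ := hARC {y | Slit b g (ψ i) d₁ y} y₀ θ d₀ hd₀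
    (fun y hy m => (hN3 y d₁ m).2 hy) (hN4 y₀ d₁ hd₁0 hy₀) (fun F hF => hi F hF)
    (fun j hj => by
      have h := harg j hj
      rw [hexp, ← Complex.exp_nat_mul] at h
      have e : (j : ℂ) * ((θ : ℂ) * I) = (j : ℂ) * θ * I := by ring
      rw [e] at h
      exact h)
  have hflat : Flat b g (ψ i) (y₀ + a * θ) d₁ := by
    refine hN1 _ _ hd₁0 (fun y' hy' => ?_)
    exact haS y' hy'.le
  have ha5 : a ≤ 5 := (Finset.mem_Icc.1 ha).2
  have hind : ∀ j : ℕ, j ≤ a → Flat b g (ψ i) (y₀ + a * θ - j * θ) (d₁ / 64 ^ j) := by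
    intro j
    induction j with
    | zero => intro _; simpa using hflat
    | succ j ih =>
      intro hj
      have hj4 : j ∈ Finset.range 5 := Finset.mem_range.2 (by omega)
      have h := hfr j k c b g ψ (R₀ jM) (ε₀ jm) su (hjM j hj4) (hjm j hj4) i _ (ih (by omega))
      have e1 : y₀ + a * θ - (j : ℝ) * θ - (rho n b).arg = y₀ + a * θ - ((j + 1 : ℕ) : ℝ) * θ := by
        rw [← hθ]
        push_cast
        ring
      have e2 : d₁ / 64 ^ j / 64 = d₁ / 64 ^ (j + 1) := by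
        rw [pow_succ, div_div]
      rw [e1, e2] at h
      exact h
  have hfin := hind a le_rfl
  have e3 : y₀ + a * θ - (a : ℝ) * θ = y₀ := by ring
  rw [e3] at hfin
  exact hy₀ _ (hpos a) hfin

end MPS
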