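import Pool.Agent.helper36.MP.SpecQ

/-!
# Project mp: (MP_af9036_an): module P2L, the `L¹` bound of Phase 2 [paper, (6.2)]
-/

set_option autoImplicit false

open Complex Metric Set Filter Topology MeasureTheory

noncomputable section

namespace MPS

lemma P2L_ofReal_sum_le {ι : Type} (s : Finset ι) (f : ι → ℝ) :
    ENNReal.ofReal (∑ i ∈ s, f i) ≤ ∑ i ∈ s, ENNReal.ofReal (f i) := by
  classical
  induction s using Finset.induction_on with
  | empty => simp
  | insert a s ha ih =>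
    rw [Finset.sum_insert ha, Finset.sum_insert ha]
    exact (ENNReal.ofReal_add_le).trans (add_le_add le_rfl ih)

lemma P2L_Icc {M : Type} [AddCommMonoid M] (F : ℕ → M) (Q : ℕ) :
    ∑ q ∈ Finset.Icc 1 Q, F q = ∑ q ∈ Finset.range Q, F (q + 1) := by
  induction Q with
  | zero => simp
  | succ Q ih =>
    rw [Finset.sum_Icc_succ_top (by omega), ih, Finset.sum_range_succ]

/-- pointwise comparison on nested sets -/
lemma P2L_nested (D : ℕ → Set ℂ) (f g : ℕ → ℂ → ENNReal) (w : ℂ) : ∀ Q : ℕ,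
    (∀ q q', q ≤ q' → q' ≤ Q → D q' ⊆ D q) →
    (∀ Q' ≤ Q, w ∈ D Q' → ∑ q ∈ Finset.range Q', f q w ≤ ∑ q ∈ Finset.range Q', g q w) →
    ∑ q ∈ Finset.range Q, (D (q + 1)).indicator (f q) w ≤
      ∑ q ∈ Finset.range Q, (D (q + 1)).indicator (g q) w := by
  intro Q
  induction Q with
  | zero => intro _ _; simp
  | succ Q ih =>
    intro hD h
    by_cases hw : w ∈ D (Q + 1)
    · have hmem : ∀ q ∈ Finset.range (Q + 1), w ∈ D (q + 1) := by
        intro q hq
        have := Finset.mem_range.1 hq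
        exact hD (q + 1) (Q + 1) (by omega) le_rfl hw
      rw [Finset.sum_congr rfl (fun q hq => Set.indicator_of_mem (hmem q hq) (f q)),
        Finset.sum_congr rfl (fun q hq => Set.indicator_of_mem (hmem q hq) (g q))]
      exact h (Q + 1) le_rfl hw
    · rw [Finset.sum_range_succ, Finset.sum_range_succ, Set.indicator_of_notMem hw,
        Set.indicator_of_notMem hw, add_zero, add_zero]
      exact ih (fun q q' h1 h2 => hD q q' h1 (by omega)) (fun Q' hQ' => h Q' (by omega))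

theorem P2L (hLEA : LEA_stmt) (hLV : LV_stmt) (hMI : MI_stmt) (hMA : MA_stmt) (hHAR : HAR_stmt)
    (hHSM : HSM_stmt) (hP2A : P2A_stmt) : P2L_stmt := by
  intro n k _ c b g ψ R ε y ρ₁ χ G1 ps T G Q H
  obtain ⟨-, hinj, hmaps, hlevs, hmult, -, hS0⟩ := hP2A n k c b g ψ R ε y ρ₁ χ G1 ps T G Q H
  obtain ⟨su2, sys, hQk⟩ := H
  have su := su2.su
  have hρ : 0 < ρ₁ := su2.r0
  set x : ℂ := (y : ℂ) * I with hx
  set E : ℝ := ∫ z in ball (0 : ℂ) R, ‖er n c b g z‖ with hEdef
  set Λ : ℝ := Real.log ‖rho n b‖ with hΛdef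
  have hE0 : 0 ≤ E := integral_nonneg (fun _ => norm_nonneg _)
  have hΛ0 : 0 ≤ Λ := Real.log_nonneg su.rho1.le
  have hEε : 2 * Real.pi * Λ + 4 * E ≤ ε := su.hE
  have hπ : 0 < Real.pi := Real.pi_pos
  have hπΛ : 0 ≤ 2 * Real.pi * Λ := by positivity
  have hε : 0 ≤ ε := by linarith
  -- monotonicity of the radii
  have hanti : ∀ q q', q ≤ q' → q' ≤ Q → T q' ≤ T q := by
    intro q q' hqq
    induction q', hqq using Nat.le_induction with
    | base => intro _; exact le_rfl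
    | succ m hm ih => intro hmQ; exact (sys.anti m (by omega)).trans (ih (by omega))
  have hTρ : ∀ q ≤ Q, T q ≤ ρ₁ := fun q hq => (hanti 0 q (by omega) hq).trans sys.t0
  have hTlow : ∀ q ≤ Q, 3 * ρ₁ / 4 < T q := fun q hq => sys.low q hq
  have hDD : ∀ q q', q ≤ q' → q' ≤ Q → ball x (T q') ⊆ ball x (T q) :=
    fun q q' h1 h2 => ball_subset_ball (hanti q q' h1 h2)
  -- holomorphy
  have hbet : ∀ q < Q, ∀ j, DifferentiableOn ℂ (bet n b g G (q + 1) j) (ball x (T (q + 1))) := by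
    intro q hq j
    exact (hLEA n k c b g G (ball x (T (q + 1))) (q + 1) su.hn su.cyc isOpen_ball
      (hlevs (q + 1) (by omega))).2.2.2.2.1 q (by omega) j
  have heef : ∀ q < Q, DifferentiableOn ℂ (eef n c b g G q) (ball x (T (q + 1))) := by
    intro q hq
    exact (hLEA n k c b g G (ball x (T (q + 1))) (q + 1) su.hn su.cyc isOpen_ball
      (hlevs (q + 1) (by omega))).2.2.2.2.2 q (by omega)
  -- the deficits
  let F : ℕ → ℂ → ℝ := fun q w => ∑ j ∈ Finset.Ico 1 n,
    (‖bet n b g G (q + 1) j w‖ - (bet n b g G (q + 1) j w).re)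
  have hF0 : ∀ q w, 0 ≤ F q w := fun q w =>
    Finset.sum_nonneg (fun j _ => sub_nonneg.2 (Complex.re_le_norm _))
  have hFc : ∀ q < Q, ContinuousOn (F q) (ball x (T (q + 1))) := by
    intro q hq
    refine continuousOn_finsetSum _ (fun j _ => ?_)
    exact ((hbet q hq j).continuousOn.norm).sub
      (Complex.continuous_re.comp_continuousOn (hbet q hq j).continuousOn)
  have hFm : ∀ q < Q, ∀ S : Set ℂ, MeasurableSet S → S ⊆ ball x (T (q + 1)) →
      AEMeasurable (fun w => ENNReal.ofReal (F q w)) (volume.restrict S) := by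
    intro q hq S hS hSs
    exact (((hFc q hq).mono hSs).aemeasurable hS).ennreal_ofReal
  have hdm : ∀ q < Q, AEMeasurable (fun w => ENNReal.ofReal (dens n c b g (G q) w))
      (volume.restrict (ball x (T (q + 1)))) := by
    intro q hq
    have hG : AEMeasurable (G q) (volume.restrict (ball x (T (q + 1)))) :=
      (((sys.diff q (by omega)).continuousOn).mono (hDD q (q + 1) (by omega) (by omega))).aemeasurable
        measurableSet_ball
    obtain ⟨-, her, hDf, -⟩ := hMI.1 n k c b g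
    refine AEMeasurable.ennreal_ofReal ?_
    unfold dens
    exact ((hDf.comp_aemeasurable hG).add ((her.comp_aemeasurable hG).norm.const_mul 2)).mul
      ((measurable_deriv (G q)).norm.pow_const 2).aemeasurable
  -- the total mass
  have hcond : ∀ q < Q, IsOpen (ball x (T (q + 1))) ∧ DifferentiableOn ℂ (G q) (ball x (T (q + 1))) ∧
      InjOn (G q) (ball x (T (q + 1))) ∧ MapsTo (G q) (ball x (T (q + 1))) (ball 0 R) := by
    intro q hq
    have hsub := hDD q (q + 1) (by omega) (by omega)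
    exact ⟨isOpen_ball, (sys.diff q (by omega)).mono hsub, (hinj q (by omega)).mono hsub,
      (hmaps q (by omega)).mono_left hsub⟩
  obtain ⟨hM1, hM2⟩ := hMA n k c b g R su.hn su.cyc su.hc su.hR su.rho1 Q 2
    (fun q => ball x (T (q + 1))) G hcond hmult
  have hSA : ∑ q ∈ Finset.range Q, ∫⁻ w in ball x (T (q + 1)), ENNReal.ofReal (F q w) ≤
      ENNReal.ofReal (2 * (2 * Real.pi * Λ + 3 * E)) := by
    have h2 : ((2 : ℕ) : ENNReal) * ENNReal.ofReal (2 * Real.pi * Λ + 3 * E) =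
        ENNReal.ofReal (2 * (2 * Real.pi * Λ + 3 * E)) := by
      rw [ENNReal.ofReal_mul (by norm_num)]
      simp
    rw [← h2]
    refine le_trans ?_ hM1
    have e1 : ∀ u : ℕ → ℂ → ENNReal, ∑ q ∈ Finset.range Q, ∫⁻ w in ball x (T (q + 1)), u q w =
        ∑ q ∈ Finset.range Q, ∫⁻ w, (ball x (T (q + 1))).indicator (u q) w := by
      intro u
      refine Finset.sum_congr rfl (fun q _ => ?_)
      rw [lintegral_indicator measurableSet_ball]
    rw [e1 (fun q w => ENNReal.ofReal (F q w)), e1 (fun q w => ENNReal.ofReal (dens n c b g (G q) w))]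
    rw [← lintegral_finsetSum' _ (fun q hq => (aemeasurable_indicator_iff measurableSet_ball).2
        (hFm q (Finset.mem_range.1 hq) _ measurableSet_ball subset_rfl)),
      ← lintegral_finsetSum' _ (fun q hq => (aemeasurable_indicator_iff measurableSet_ball).2
        (hdm q (Finset.mem_range.1 hq)))]
    refine lintegral_mono (fun w => ?_)
    refine P2L_nested (fun q => ball x (T q)) _ _ w Q hDD ?_
    intro Q' hQ' hw
    have hlv := (hLV n k c b g G (ball x (T Q')) Q' su.hn su.cyc isOpen_ball (hlevs Q' hQ')).1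
      Q' le_rfl w hw
    have hreal : ∑ q ∈ Finset.range Q', F q w ≤ ∑ q ∈ Finset.range Q', dens n c b g (G q) w := by
      have : 0 ≤ ‖tau b g G Q' w‖ - (tau b g G Q' w).re := sub_nonneg.2 (Complex.re_le_norm _)
      linarith
    calc ∑ q ∈ Finset.range Q', ENNReal.ofReal (F q w)
        = ENNReal.ofReal (∑ q ∈ Finset.range Q', F q w) :=
          (ENNReal.ofReal_sum_of_nonneg (fun q _ => hF0 q w)).symm
      _ ≤ ENNReal.ofReal (∑ q ∈ Finset.range Q', dens n c b g (G q) w) :=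
          ENNReal.ofReal_le_ofReal hreal
      _ ≤ ∑ q ∈ Finset.range Q', ENNReal.ofReal (dens n c b g (G q) w) := P2L_ofReal_sum_le _ _
  have hSK : ∑ q ∈ Finset.range Q, ∫⁻ w in ball x (T (q + 1)), ENNReal.ofReal ‖eef n c b g G q w‖ ≤
      ENNReal.ofReal (2 * E) := by
    have h2 : ((2 : ℕ) : ENNReal) * ENNReal.ofReal E = ENNReal.ofReal (2 * E) := by
      rw [ENNReal.ofReal_mul (by norm_num)]
      simp
    rw [← h2]
    refine le_trans (le_of_eq ?_) hM2
    refine Finset.sum_congr rfl (fun q _ => lintegral_congr (fun w => ?_))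
    congr 1
    unfold eef
    rw [norm_mul, norm_pow, mul_comm]
  -- Harnack at the point `w₀`
  set w₀ : ℂ := x - ρ₁ / 4 with hw₀
  let s : Finset (ℕ × ℕ) := Finset.range Q ×ˢ Finset.Ico 1 n
  let h : ℕ × ℕ → ℂ → ℂ := fun i w => bet n b g G (i.1 + 1) i.2 w
  have hν : 0 ≤ 2 * (2 * Real.pi * Λ + 3 * E) := by positivity
  have hdist : dist w₀ x = ρ₁ / 4 := by
    rw [hw₀, dist_eq_norm]
    have : x - (ρ₁ : ℂ) / 4 - x = ((-(ρ₁ / 4) : ℝ) : ℂ) := by push_cast; ring
    rw [this, Complex.norm_real, Real.norm_eq_abs, abs_neg, abs_of_pos (by positivity)]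
  have hsub0 : ∀ q < Q, ball w₀ (3 * ρ₁ / 8) ⊆ ball x (T (q + 1)) := by
    intro q hq
    refine ball_subset_ball' ?_
    rw [hdist]
    linarith [hTlow (q + 1) (by omega)]
  have hsub1 : ball x (ρ₁ / 8) ⊆ ball w₀ (3 * ρ₁ / 8) := by
    refine ball_subset_ball' ?_
    rw [dist_comm, hdist]
    linarith
  have hhd : ∀ i ∈ s, DifferentiableOn ℂ (h i) (ball w₀ (3 * ρ₁ / 8)) := by
    intro i hi
    have hi1 := Finset.mem_range.1 (Finset.mem_product.1 hi).1
    exact (hbet i.1 hi1 i.2).mono (hsub0 i.1 hi1)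
  have hint0 : ∫⁻ z in ball w₀ (3 * ρ₁ / 8), ENNReal.ofReal (∑ i ∈ s, (‖h i z‖ - (h i z).re)) ≤
      ENNReal.ofReal (2 * (2 * Real.pi * Λ + 3 * E)) := by
    refine le_trans ?_ hSA
    have e1 : ∀ z, ENNReal.ofReal (∑ i ∈ s, (‖h i z‖ - (h i z).re)) =
        ∑ q ∈ Finset.range Q, ENNReal.ofReal (F q z) := by
      intro z
      rw [← ENNReal.ofReal_sum_of_nonneg (fun q _ => hF0 q z)]
      congr 1
      exact Finset.sum_product _ _ _
    simp_rw [e1]
    rw [lintegral_finsetSum' _ (fun q hq => hFm q (Finset.mem_range.1 hq) _ measurableSet_ball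
      (hsub0 q (Finset.mem_range.1 hq)))]
    exact Finset.sum_le_sum (fun q hq => lintegral_mono_set (hsub0 q (Finset.mem_range.1 hq)))
  have hH0 := (hHAR (ℕ × ℕ) s h w₀ (3 * ρ₁ / 8) _ (by positivity) hν hhd hint0).1
  have hSM := hHSM (ℕ × ℕ) s h x (ρ₁ / 8) (by positivity) (fun i hi => (hhd i hi).mono hsub1)
  have hS0' : ∑ i ∈ s, ‖h i w₀‖ ≤ 97 * ε / ρ₁ ^ 2 := by
    refine le_trans ?_ hS0
    rw [P2L_Icc]
    have : ∑ i ∈ s, ‖h i w₀‖ = ∑ q ∈ Finset.range Q, ∑ j ∈ Finset.Ico 1 n,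
        ‖bet n b g G (q + 1) j w₀‖ := Finset.sum_product _ _ _
    rw [this]
    refine Finset.sum_le_sum (fun q _ => ?_)
    unfold lev
    linarith [norm_nonneg (eef n c b g G (q + 1 - 1) w₀)]
  have hSx : Real.pi * ρ₁ ^ 2 * ∑ i ∈ s, ‖h i x‖ ≤ (128 + 873 * Real.pi) * ε := by
    have h1 : ENNReal.ofReal (Real.pi * (ρ₁ / 8) ^ 2 * ∑ i ∈ s, ‖h i x‖) ≤
        ENNReal.ofReal (2 * (2 * Real.pi * Λ + 3 * E) +
          Real.pi * (3 * ρ₁ / 8) ^ 2 * ∑ i ∈ s, ‖h i w₀‖) :=
      hSM.trans ((lintegral_mono_set hsub1).trans hH0)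
    have hS00 : 0 ≤ ∑ i ∈ s, ‖h i w₀‖ := Finset.sum_nonneg (fun _ _ => norm_nonneg _)
    rw [ENNReal.ofReal_le_ofReal_iff (by positivity)] at h1
    have h2 : Real.pi * (3 * ρ₁ / 8) ^ 2 * ∑ i ∈ s, ‖h i w₀‖ ≤
        Real.pi * (3 * ρ₁ / 8) ^ 2 * (97 * ε / ρ₁ ^ 2) :=
      mul_le_mul_of_nonneg_left hS0' (by positivity)
    have h3 : Real.pi * (3 * ρ₁ / 8) ^ 2 * (97 * ε / ρ₁ ^ 2) = 873 / 64 * Real.pi * ε := by
      field_simp
      ring
    have h4 : Real.pi * (ρ₁ / 8) ^ 2 * ∑ i ∈ s, ‖h i x‖ =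
        (Real.pi * ρ₁ ^ 2 * ∑ i ∈ s, ‖h i x‖) / 64 := by ring
    rw [h4] at h1
    linarith
  -- Harnack at the centre, for every level
  have hlevel : ∀ q < Q, ∫⁻ w in ball x (T (q + 1)), ENNReal.ofReal (lev n c b g G (q + 1) w) ≤
      (∫⁻ w in ball x (T (q + 1)), ENNReal.ofReal (F q w)) +
      ENNReal.ofReal (Real.pi * ρ₁ ^ 2 * ∑ j ∈ Finset.Ico 1 n, ‖bet n b g G (q + 1) j x‖) +
      ∫⁻ w in ball x (T (q + 1)), ENNReal.ofReal ‖eef n c b g G q w‖ := by
    intro q hq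
    have hTq : 0 < T (q + 1) := by linarith [hTlow (q + 1) (by omega)]
    have hfin : ∫⁻ w in ball x (T (q + 1)), ENNReal.ofReal (F q w) ≠ ⊤ := by
      refine ne_top_of_le_ne_top ENNReal.ofReal_ne_top (le_trans ?_ hSA)
      exact Finset.single_le_sum
        (f := fun q => ∫⁻ w in ball x (T (q + 1)), ENNReal.ofReal (F q w))
        (fun _ _ => bot_le) (Finset.mem_range.2 hq)
    have hH := (hHAR ℕ (Finset.Ico 1 n) (fun j => bet n b g G (q + 1) j) x (T (q + 1))
      (∫⁻ w in ball x (T (q + 1)), ENNReal.ofReal (F q w)).toReal hTq ENNReal.toReal_nonneg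
      (fun j _ => hbet q hq j) (by rw [ENNReal.ofReal_toReal hfin])).1
    have hsplit : ∀ w, ENNReal.ofReal (lev n c b g G (q + 1) w) =
        ENNReal.ofReal (∑ j ∈ Finset.Ico 1 n, ‖bet n b g G (q + 1) j w‖) +
          ENNReal.ofReal ‖eef n c b g G q w‖ := by
      intro w
      rw [← ENNReal.ofReal_add (Finset.sum_nonneg (fun _ _ => norm_nonneg _)) (norm_nonneg _)]
      rfl
    have hmeas : AEMeasurable (fun w => ENNReal.ofReal (∑ j ∈ Finset.Ico 1 n,
        ‖bet n b g G (q + 1) j w‖)) (volume.restrict (ball x (T (q + 1)))) := by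
      have hc : ContinuousOn (fun w => ∑ j ∈ Finset.Ico 1 n, ‖bet n b g G (q + 1) j w‖)
          (ball x (T (q + 1))) :=
        continuousOn_finsetSum _ (fun j _ => (hbet q hq j).continuousOn.norm)
      exact (hc.aemeasurable measurableSet_ball).ennreal_ofReal
    simp_rw [hsplit]
    rw [lintegral_add_left' hmeas]
    refine add_le_add (hH.trans ?_) le_rfl
    refine (ENNReal.ofReal_add_le).trans ?_
    rw [ENNReal.ofReal_toReal hfin]
    refine add_le_add le_rfl (ENNReal.ofReal_le_ofReal ?_)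
    refine mul_le_mul_of_nonneg_right ?_ (Finset.sum_nonneg (fun _ _ => norm_nonneg _))
    exact mul_le_mul_of_nonneg_left (pow_le_pow_left₀ hTq.le (hTρ (q + 1) (by omega)) 2) hπ.le
  rw [P2L_Icc]
  calc ∑ q ∈ Finset.range Q, ∫⁻ w in ball x (T (q + 1)), ENNReal.ofReal (lev n c b g G (q + 1) w)
      ≤ ∑ q ∈ Finset.range Q, ((∫⁻ w in ball x (T (q + 1)), ENNReal.ofReal (F q w)) +
        ENNReal.ofReal (Real.pi * ρ₁ ^ 2 * ∑ j ∈ Finset.Ico 1 n, ‖bet n b g G (q + 1) j x‖) +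
        ∫⁻ w in ball x (T (q + 1)), ENNReal.ofReal ‖eef n c b g G q w‖) :=
        Finset.sum_le_sum (fun q hq => hlevel q (Finset.mem_range.1 hq))
    _ = (∑ q ∈ Finset.range Q, ∫⁻ w in ball x (T (q + 1)), ENNReal.ofReal (F q w)) +
        ENNReal.ofReal (Real.pi * ρ₁ ^ 2 * ∑ i ∈ s, ‖h i x‖) +
        ∑ q ∈ Finset.range Q, ∫⁻ w in ball x (T (q + 1)), ENNReal.ofReal ‖eef n c b g G q w‖ := by
        rw [Finset.sum_add_distrib, Finset.sum_add_distrib,
          ← ENNReal.ofReal_sum_of_nonneg (fun q _ => mul_nonneg (by positivity)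
            (Finset.sum_nonneg (fun _ _ => norm_nonneg _))), ← Finset.mul_sum]
        have : ∑ i ∈ s, ‖h i x‖ = ∑ q ∈ Finset.range Q, ∑ j ∈ Finset.Ico 1 n,
            ‖bet n b g G (q + 1) j x‖ := Finset.sum_product _ _ _
        rw [this]
    _ ≤ ENNReal.ofReal (2 * (2 * Real.pi * Λ + 3 * E)) +
        ENNReal.ofReal ((128 + 873 * Real.pi) * ε) + ENNReal.ofReal (2 * E) :=
        add_le_add (add_le_add hSA (ENNReal.ofReal_le_ofReal hSx)) hSK
    _ = ENNReal.ofReal (2 * (2 * Real.pi * Λ + 3 * E) + (128 + 873 * Real.pi) * ε + 2 * E) := by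
        rw [ENNReal.ofReal_add (by positivity) (by positivity),
          ENNReal.ofReal_add (by positivity) (by positivity)]
    _ ≤ ENNReal.ofReal (4000 * ε) := by
        refine ENNReal.ofReal_le_ofReal ?_
        have hπ4 : Real.pi ≤ 4 := Real.pi_le_four
        nlinarith [mul_le_mul_of_nonneg_right hπ4 hε]

end MPS
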