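import Pool.Agent.helper36.MP.SpecN

/-!
# mp:TP. The numerator polynomial
-/

set_option autoImplicit false

open Complex Metric Set Filter Topology MeasureTheory

noncomputable section

namespace MPS

theorem TP_M {k : ℕ} [NeZero k] (b : ZMod k → ℂ) (i : ZMod k) :
    (∏ j ∈ Finset.univ.erase i, (Polynomial.X - Polynomial.C (b j)) ^ 2).Monic ∧
    (∏ j ∈ Finset.univ.erase i, (Polynomial.X - Polynomial.C (b j)) ^ 2).natDegree = 2 * (k - 1) := by
  have hm : ∀ j ∈ Finset.univ.erase i, ((Polynomial.X - Polynomial.C (b j)) ^ 2).Monic :=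
    fun j _ => (Polynomial.monic_X_sub_C (b j)).pow 2
  refine ⟨Polynomial.monic_prod_of_monic _ _ hm, ?_⟩
  rw [Polynomial.natDegree_prod_of_monic _ _ hm]
  have h2 : ∀ j ∈ Finset.univ.erase i, ((Polynomial.X - Polynomial.C (b j)) ^ 2).natDegree = 2 := by
    intro j _
    rw [(Polynomial.monic_X_sub_C (b j)).natDegree_pow, Polynomial.natDegree_X_sub_C, mul_one]
  rw [Finset.sum_congr rfl h2, Finset.sum_const, Finset.card_erase_of_mem (Finset.mem_univ i),
    Finset.card_univ, ZMod.card, smul_eq_mul, mul_comm]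

theorem TP_coeff {k : ℕ} [NeZero k] (b g : ZMod k → ℂ) (i : ZMod k) :
    ((1 + Polynomial.C (g i) * (Polynomial.X - Polynomial.C (b i))) *
      ∏ j ∈ Finset.univ.erase i, (Polynomial.X - Polynomial.C (b j)) ^ 2).natDegree ≤ 2 * k - 1 ∧
    ((1 + Polynomial.C (g i) * (Polynomial.X - Polynomial.C (b i))) *
      ∏ j ∈ Finset.univ.erase i, (Polynomial.X - Polynomial.C (b j)) ^ 2).coeff (2 * k - 1) = g i := by
  obtain ⟨hM, hd⟩ := TP_M b i
  set M := ∏ j ∈ Finset.univ.erase i, (Polynomial.X - Polynomial.C (b j)) ^ 2 with hMdef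
  have hk : 0 < k := Nat.pos_of_ne_zero (NeZero.ne k)
  have hk2 : 2 * k - 1 = 2 * (k - 1) + 1 := by omega
  have he : (1 + Polynomial.C (g i) * (Polynomial.X - Polynomial.C (b i))) * M =
      Polynomial.C (g i) * (M * Polynomial.X) + Polynomial.C (1 - g i * b i) * M := by
    rw [Polynomial.C_sub, Polynomial.C_mul, Polynomial.C_1]
    ring
  have hdX : (M * Polynomial.X).natDegree = 2 * (k - 1) + 1 := by
    rw [Polynomial.natDegree_mul_X hM.ne_zero, hd]
  constructor
  · rw [he, hk2]
    refine (Polynomial.natDegree_add_le _ _).trans (max_le ?_ ?_)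
    · exact (Polynomial.natDegree_C_mul_le _ _).trans hdX.le
    · exact (Polynomial.natDegree_C_mul_le _ _).trans (by rw [hd]; omega)
  · rw [he, hk2, Polynomial.coeff_add, Polynomial.coeff_C_mul, Polynomial.coeff_C_mul,
      Polynomial.coeff_mul_X]
    have h1 : M.coeff (2 * (k - 1)) = 1 := by
      rw [← hd]
      exact hM
    have h2 : M.coeff (2 * (k - 1) + 1) = 0 :=
      Polynomial.coeff_eq_zero_of_natDegree_lt (by rw [hd]; omega)
    rw [h1, h2]
    ring

theorem TP : TP_stmt := by
  intro k _ b g hb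
  refine ⟨fun z hz => ?_, fun i => ?_, fun hg => ?_⟩
  · unfold BB Ppoly
    rw [Polynomial.eval_finsetSum, Finset.sum_mul]
    refine Finset.sum_congr rfl fun i _ => ?_
    have hzi : z - b i ≠ 0 := sub_ne_zero.mpr (hz i)
    rw [← Finset.mul_prod_erase Finset.univ (fun j => (z - b j) ^ 2) (Finset.mem_univ i),
      Polynomial.eval_mul, Polynomial.eval_prod]
    simp only [Polynomial.eval_add, Polynomial.eval_one, Polynomial.eval_mul, Polynomial.eval_C,
      Polynomial.eval_sub, Polynomial.eval_X, Polynomial.eval_pow]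
    field_simp
  · unfold Ppoly
    rw [Polynomial.eval_finsetSum, Finset.sum_eq_single i]
    · rw [Polynomial.eval_mul, Polynomial.eval_prod]
      simp only [Polynomial.eval_add, Polynomial.eval_one, Polynomial.eval_mul, Polynomial.eval_C,
        Polynomial.eval_sub, Polynomial.eval_X, Polynomial.eval_pow, sub_self, mul_zero, add_zero,
        one_mul]
      rw [Finset.prod_ne_zero_iff]
      intro j hj
      exact pow_ne_zero 2 (sub_ne_zero.mpr fun h => Finset.ne_of_mem_erase hj (hb h).symm)
    · intro j _ hj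
      rw [Polynomial.eval_mul, Polynomial.eval_prod]
      have h0 : ∏ l ∈ Finset.univ.erase j, ((Polynomial.X - Polynomial.C (b l)) ^ 2).eval (b i) = 0 := by
        refine Finset.prod_eq_zero (i := i) (Finset.mem_erase.mpr ⟨hj.symm, Finset.mem_univ _⟩) ?_
        simp
      rw [h0, mul_zero]
    · intro h
      exact absurd (Finset.mem_univ i) h
  · have hle : (Ppoly b g).natDegree ≤ 2 * k - 1 := by
      unfold Ppoly
      exact Polynomial.natDegree_sum_le_of_forall_le _ _ fun i _ => (TP_coeff b g i).1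
    have hco : (Ppoly b g).coeff (2 * k - 1) = ∑ i, g i := by
      unfold Ppoly
      rw [Polynomial.finsetSum_coeff]
      exact Finset.sum_congr rfl fun i _ => (TP_coeff b g i).2
    have hd : (Ppoly b g).natDegree = 2 * k - 1 := by
      refine le_antisymm hle (Polynomial.le_natDegree_of_ne_zero ?_)
      rw [hco]
      exact hg
    refine ⟨hd, ?_⟩
    rw [Polynomial.leadingCoeff, hd, hco]

end MPS
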